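import Pool.Agent.U880.HJ.Fin

/-!
# Sets of primes and the 2-primary Tate-Shafarevich groups of the twists of a hyperelliptic Jacobian

Let `k` be a finite field of characteristic different from 2 in which `-1` is a square, `K = k(t)`,
`n = 2 g + 1 ≥ 3`, and let `a 1, …, a n` be polynomials over `k` such that all the differences
`a i - a j` (`i ≠ j`) have the same degree `N ≥ 1` and the product of the differences `a i - a j`,
`i < j`, is squarefree. Let `J_D` be the Jacobian of the curve `y ^ 2 = D(t) (x - a 1) ⋯ (x - a n)` of
genus `g` over `K`, for `D` monic, squarefree and prime to the differences.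

It is known (the starting result `HyperellipticTwists`) that for at least a sixth of the `D` of degree `m`,
`m + N` odd, the 2-primary part of the Tate-Shafarevich group of `J_D` vanishes and
`J_D(K) = J_D(K)[2] + 2 J_D(K)`, so that the conjecture of Birch and Swinnerton-Dyer holds for `J_D`. Here
we add sets of primes to these `D`. A new prime is a monic irreducible polynomial `P` not dividing `D` or
a difference; two new primes have the same type if their degrees have the same parity and they have the
same quadratic symbols at the primes dividing `D` or a difference. To `D` and `P` belongs the endomorphism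
`M = M(D, P)` of the space `W` of the vectors of even weight in `F_2 ^ n`,

`(M x) l = [D / P] x l + ∑ l', [(a l - a l') / P] (x l + x l')`

(symbols with values in `F_2`; this is the map `J_D[2] → J_D(k_P) / 2 J_D(k_P)` over the residue field `k_P`
of `P`, so it is injective if and only if `J_D(k_P)` has no point of order 4), and `P` is called admissible
if `M` is injective.

Theorem. There is a set `𝒢` of polynomials `D` with the properties above, `deg D + N` odd, which contains
for every `ε > 0` at least `1 / 6 - ε` of the `D` of degree `m` if `m` is large and `m + N` is odd, such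
that for all `D` in `𝒢` all points of `J_D(K)` are in `J_D(K)[2] + 2 J_D(K)` and the 2-primary part of the
Tate-Shafarevich group of `J_D` is zero, and such that for every `D` in `𝒢`:

1. (exact criterion) for every set `A` of new primes of the same type with an even number of elements,
   `D ∏ P` (`P ∈ A`) is in `𝒢` if and only if the system of linear equations
   `∑_{P' ∈ A} [P' / P] (x_{P'} + x_P) = M x_P`, `P ∈ A`, has no solution `x ≠ 0` in `W ^ A`: the Laplacian
   of the graph on `A` defined by the symbols, against the matrix `M`;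
2. for two new primes `P ≠ P'` of the same type, `D P P'` is in `𝒢` if and only if `P` is admissible,
   whatever the symbol `[P' / P]`;
3. (finite sets) if `S` is a finite set of admissible new primes with at least
   `B = 2 ^ (4 m + ω + 1)` elements, where `ω` is the number of primes dividing `D` or a difference, then
   `D ∏ P` (`P ∈ A`) is in `𝒢` for a proportion of at least `1 / (B choose 2 m)` of the subsets `A` of `S`
   with `2 m` elements;
4. (infinite sets) a set `S` of new primes contains an infinite subset `T` such that `D ∏ P` (`P ∈ A`) is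
   in `𝒢` for all finite subsets `A` of `T` with an even number of elements, if and only if infinitely many
   elements of `S` are admissible;
5. there are admissible new primes of all large even degrees. (So by 4 such infinite sets `T` always exist.)

By Artin-Grothendieck, Tate, Milne and Kato-Trihan the whole conjecture of Birch and Swinnerton-Dyer holds
for `J_D`, `D ∈ 𝒢`.
-/

set_option autoImplicit false
set_option linter.all false

namespace Pool.Agent.Results.MP_60d5ce_nt.HyperellipticPrimeSets

open Polynomial Filter Pool.Agent.Y713.Jac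
open scoped Classical

/-- The product of the differences `a i - a j`, `i < j`. -/
noncomputable def differences {k : Type} [Field k] {n : ℕ} (a : Fin n → k[X]) : k[X] :=
  ∏ x ∈ (Finset.univ : Finset (Fin n × Fin n)).filter (fun x => x.1 < x.2), (a x.1 - a x.2)

/-- The monic squarefree polynomials `D` of degree `m` prime to the differences `a i - a j`. -/
def Twists {k : Type} [Field k] {n : ℕ} (a : Fin n → k[X]) (m : ℕ) : Set k[X] :=
  {D | D.Monic ∧ D.natDegree = m ∧ Squarefree D ∧ ∀ i j, i ≠ j → IsCoprime D (a i - a j)}

/-- The polynomial `D(t) ∏ (x - a i)` in `x` over `K = k(t)`. -/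
noncomputable def twist {k : Type} [Field k] (K : Type) [Field K] [Algebra k[X] K] {n : ℕ}
    (a : Fin n → k[X]) (D : k[X]) : K[X] :=
  C (algebraMap k[X] K D) * ∏ i, (X - C (algebraMap k[X] K (a i)))

/-- Every element of the group is the product of an element of order at most 2 and a square. -/
def TorsionTimesSquares (G : Type) [CommGroup G] : Prop := ∀ P : G, ∃ T Q : G, T ^ 2 = 1 ∧ P = T * Q ^ 2

/-- For the Jacobian `J_D` of the twist by `D`, the group `J_D(K)` is `J_D(K)[2] + 2 J_D(K)`, and the
2-primary part of the group of the classes in `H ^ 1 (K, J_D)` which are trivial over the completions of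
`K = k(t)` at the places different from infinity is zero. -/
def IsGood {k : Type} [Field k] (K : Type) [Field K] [Algebra k[X] K] [IsFractionRing k[X] K]
    {n : ℕ} (a : Fin n → k[X]) (D : k[X]) : Prop :=
  ShaPrimaryTrivial 2 (twist K a D) k[X] ∧ TorsionTimesSquares (J 2 (twist K a D) K)

/-- The symbol of `f` at the prime `P`: `0` if `f` is a square modulo `P`, and `1` otherwise. -/
noncomputable def sym {k : Type} [Field k] (P f : k[X]) : ZMod 2 :=
  if ∃ z, P ∣ z ^ 2 - f then 0 else 1

/-- The new primes: the monic irreducible polynomials not dividing `D` or a difference. -/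
def IsNew {k : Type} [Field k] {n : ℕ} (a : Fin n → k[X]) (D P : k[X]) : Prop :=
  P.Monic ∧ Irreducible P ∧ ¬ P ∣ D * differences a

/-- `P` and `P'` have the same type: their degrees have the same parity, and they have the same symbols at
all the primes dividing `D` or a difference. -/
def SameType {k : Type} [Field k] {n : ℕ} (a : Fin n → k[X]) (D P P' : k[X]) : Prop :=
  (Even P.natDegree ↔ Even P'.natDegree) ∧
    ∀ R : k[X], R.Monic → Irreducible R → R ∣ D * differences a → sym R P = sym R P'

/-- The endomorphism `M` of `F_2 ^ n`. -/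
noncomputable def mat {k : Type} [Field k] {n : ℕ} (a : Fin n → k[X]) (D P : k[X])
    (x : Fin n → ZMod 2) (l : Fin n) : ZMod 2 :=
  sym P D * x l + ∑ l', sym P (a l - a l') * (x l + x l')

/-- `M` is injective on the vectors of even weight. -/
def Admissible {k : Type} [Field k] {n : ℕ} (a : Fin n → k[X]) (D P : k[X]) : Prop :=
  ∀ x : Fin n → ZMod 2, ∑ l, x l = 0 → (∀ l, mat a D P x l = 0) → x = 0

/-- The system of the equations `∑ P' ∈ A, [P' / P] (x P' + x P) = M (x P)`, `P ∈ A`, for vectors `x P` of
even weight, has no solution but 0. -/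
def Criterion {k : Type} [Field k] {n : ℕ} (a : Fin n → k[X]) (D : k[X]) (A : Finset k[X]) : Prop :=
  ∀ x : k[X] → Fin n → ZMod 2, (∀ P ∈ A, ∑ l, x P l = 0) →
    (∀ P ∈ A, ∀ l, ∑ P' ∈ A, sym P P' * (x P' l + x P l) = mat a D P (x P) l) → ∀ P ∈ A, x P = 0

/-- The number `2 ^ (4 m + ω + 1)`, where `ω` is the number of primes dividing `D` or a difference. -/
noncomputable def bound {k : Type} [Field k] {n : ℕ} (a : Fin n → k[X]) (D : k[X]) (m : ℕ) : ℕ :=
  2 ^ (4 * m + Nat.card {R : k[X] // R.Monic ∧ Irreducible R ∧ R ∣ D * differences a} + 1)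

theorem result (k : Type) [Field k] [Finite k] (h2 : (2 : k) ≠ 0) (hi : IsSquare (-1 : k))
    (K : Type) [Field K] [Algebra k[X] K] [IsFractionRing k[X] K] (n : ℕ) (hn : Odd n)
    (hn3 : 3 ≤ n) (N : ℕ) (hN : 1 ≤ N) (a : Fin n → k[X])
    (ha : ∀ i j, i ≠ j → (a i - a j).natDegree = N) (hs : Squarefree (differences a)) :
    ∃ 𝒢 : Set k[X],
      (∀ D ∈ 𝒢, D.Monic ∧ Squarefree D ∧ (∀ i j, i ≠ j → IsCoprime D (a i - a j)) ∧
        Odd (D.natDegree + N) ∧ IsGood K a D) ∧
      (∀ ε : ℝ, 0 < ε → ∀ᶠ m : ℕ in atTop, Odd (m + N) →
        (1 / 6 - ε) * ((Twists a m).ncard : ℝ) ≤ (({D ∈ Twists a m | D ∈ 𝒢}).ncard : ℝ)) ∧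
      ∀ D ∈ 𝒢,
        (∀ A : Finset k[X], Even A.card → (∀ P ∈ A, IsNew a D P) →
          (∀ P ∈ A, ∀ P' ∈ A, SameType a D P P') → (D * ∏ P ∈ A, P ∈ 𝒢 ↔ Criterion a D A)) ∧
        (∀ P P' : k[X], IsNew a D P → IsNew a D P' → P ≠ P' → SameType a D P P' →
          (D * (P * P') ∈ 𝒢 ↔ Admissible a D P)) ∧
        (∀ (S : Finset k[X]) (m : ℕ), (∀ P ∈ S, IsNew a D P ∧ Admissible a D P) →
          bound a D m ≤ S.card → S.card.choose (2 * m) ≤ (bound a D m).choose (2 * m) *
            ((S.powersetCard (2 * m)).filter fun A => D * ∏ P ∈ A, P ∈ 𝒢).card) ∧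
        (∀ S : Set k[X], (∀ P ∈ S, IsNew a D P) →
          ((∃ T ⊆ S, T.Infinite ∧
              ∀ A : Finset k[X], ↑A ⊆ T → Even A.card → D * ∏ P ∈ A, P ∈ 𝒢) ↔
            {P ∈ S | Admissible a D P}.Infinite)) ∧
        (∀ᶠ d : ℕ in atTop, Even d →
          ∃ P : k[X], P.natDegree = d ∧ IsNew a D P ∧ Admissible a D P) :=
  Pool.Agent.U880.HJ.final h2 hi K hn hn3 N hN a ha hs

end Pool.Agent.Results.MP_60d5ce_nt.HyperellipticPrimeSets
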