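import Pool.Agent.Results.MP_60d5ce_nt.IrreduciblePencils
import Pool.Agent.U695.LG.Wt

/-!
# The quadratic twists of hyperelliptic Jacobians over `k(t)` in the large genus limit

Let `k` be a finite field of odd characteristic, `ε` in `k` not a square, and `f` a monic irreducible
polynomial over `k` of odd degree `n = 2 g + 1 ≥ 3`. For a squarefree polynomial `D` let `J_D` be the
Jacobian, of dimension `g`, of the curve `D(t) y ^ 2 = (x - t) f(x)` over `k(t)`: these are the
quadratic twists of one nonisotrivial abelian variety. Every twist is, up to isomorphism, `J_D` or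
`J_{ε D}` for exactly one monic squarefree `D`. The starting file `IrreduciblePencils` bounds the sum of the
orders of vanishing at `s = 1` of `L(J_D, s)` and `L(J_{ε D}, s)` by
`1 + ∑_{P | D} (gcd(deg P, n) - 1) 2 ^ v(deg P)`; for fixed `n` and large degree of `D` almost all `D` have
prime factors with degrees not prime to `n`, and nothing is said there about averages.

Here: averages over all monic squarefree `D` of degree `d`, with all constants explicit and
independent of the finite field `k` and of `f`. Let `totalOrder f ε D` be the sum of the two orders of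
vanishing (the order of vanishing of the `L`-function of `J_D` over the quadratic extension of constants),
`H(t) = ∑_{j ≤ t} 1 / j ≤ 1 + log t` and `B(t) = ∑_{j ≤ t} 2 ^ v(j) / j ≤ (1 + log_2 t) (1 + log t)`.

* For all `n` and `d` the average of `totalOrder` is at most `1 + 2 ∑_{e | n, e > 1} (φ(e) / e) B(d / e)`;
  if `n` is prime it is at most `1 + 2 B(d / n)`, which is `1` for `d < n` and bounded for `d ≤ C n`. So the
  average order of vanishing of the `L`-functions of all twists of degree `d` is at most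
  `1 / 2 + B(d / n)`. (The bounds for average orders which come from the statistics of the zeros
  near the central point grow with the genus.)
* The proportion of the `D` with `totalOrder ≥ 2` is at most `2 ∑_{p | n} H(d / p) / p` (`p` prime).
  For `D` with `totalOrder ≤ 1` one of the functions `L(J_D, s)`, `L(J_{ε D}, s)` does not vanish at
  `s = 1`; for this twist (by Tate's inequality) the rank is zero, the Tate-Shafarevich group is
  finite and the formula of Birch and Swinnerton-Dyer holds.
* The large genus limit: for every `A` and `δ > 0`, if `n` is prime and large, then for all `k`, `f`, `ε` and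
  all `d ≤ n ^ A` the proportion of the `D` of degree `d` with `totalOrder ≥ 2` is at most `δ`. So the
  analytic rank is zero for at least `50 %` of all the twists and at most one for `100 %`.

The proof: the theorem of the starting file, the bound `m π(m) ≤ q ^ m` for the number `π(m)` of monic
irreducible polynomials of degree `m`, and the fact that at least half of the monic polynomials of degree
`d` are squarefree.
-/

set_option autoImplicit false

open Polynomial
open scoped Classical

namespace Pool.Agent.Results.MP_60d5ce_nt.LargeGenusTwists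

open Pool.Agent.Results.MP_60d5ce_nt.IrreduciblePencils
  (VanishesTo IsAdmissible bound primes twoPart)

/-- The monic squarefree polynomials of degree `d`. -/
noncomputable def family (k : Type) [Field k] [Finite k] (d : ℕ) : Finset k[X] :=
  Pool.Agent.U695.LG.Sf k d

theorem mem_family {k : Type} [Field k] [Finite k] {d : ℕ} {D : k[X]} :
    D ∈ family k d ↔ D.Monic ∧ D.natDegree = d ∧ Squarefree D :=
  Pool.Agent.U695.LG.mem_Sf

/-- The sum of the orders of vanishing at `s = 1` of `L(J_D, s)` and `L(J_{ε D}, s)`: the greatest `m + m'`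
such that `L(J_D, s)` vanishes to order at least `m` and `L(J_{ε D}, s)` to order at least `m'`. -/
noncomputable def totalOrder {k : Type} [Field k] (f : k[X]) (ε : k) (D : k[X]) : ℕ :=
  sSup {s | ∃ m m' : ℕ, VanishesTo f D m ∧ VanishesTo f (C ε * D) m' ∧ s = m + m'}

/-- `H(t) = ∑_{j ≤ t} 1 / j` -/
noncomputable def harmonicSum (t : ℕ) : ℝ := ∑ j ∈ Finset.range t, 1 / ((j + 1 : ℕ) : ℝ)

/-- `B(t) = ∑_{j ≤ t} 2 ^ v(j) / j`, `2 ^ v(j)` the greatest power of two dividing `j` -/
noncomputable def dyadicSum (t : ℕ) : ℝ :=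
  ∑ j ∈ Finset.range t, (twoPart (j + 1) : ℝ) / ((j + 1 : ℕ) : ℝ)

/-- The proportion of the `D` in the family with `totalOrder f ε D ≥ 2` is at most `δ`. -/
def FewExceptions {k : Type} [Field k] [Finite k] (f : k[X]) (ε : k) (d : ℕ) (δ : ℝ) : Prop :=
  (((family k d).filter fun D => 2 ≤ totalOrder f ε D).card : ℝ) ≤ δ * ((family k d).card : ℝ)

section proof

variable {k : Type} [Field k] [Finite k] {f : k[X]} {ε : k}

theorem bounded (h2 : (2 : k) ≠ 0) (hf : IsAdmissible f) (hε : ¬ IsSquare ε) {D : k[X]}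
    (hD : Squarefree D) {s : ℕ}
    (hs : s ∈ {s | ∃ m m' : ℕ, VanishesTo f D m ∧ VanishesTo f (C ε * D) m' ∧ s = m + m'}) :
    s ≤ bound f.natDegree D := by
  obtain ⟨m, m', h3, h4, rfl⟩ := hs
  exact Pool.Agent.Results.MP_60d5ce_nt.IrreduciblePencils.result k h2 f hf D hD ε hε m m' h3 h4

theorem total_le (h2 : (2 : k) ≠ 0) (hf : IsAdmissible f) (hε : ¬ IsSquare ε) {D : k[X]}
    (hD : Squarefree D) : totalOrder f ε D ≤ bound f.natDegree D := by
  unfold totalOrder
  rcases Set.eq_empty_or_nonempty
    {s | ∃ m m' : ℕ, VanishesTo f D m ∧ VanishesTo f (C ε * D) m' ∧ s = m + m'} with h | h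
  · rw [h, csSup_empty]
    exact Nat.zero_le _
  · exact csSup_le h fun s hs => bounded h2 hf hε hD hs

theorem le_total (h2 : (2 : k) ≠ 0) (hf : IsAdmissible f) (hε : ¬ IsSquare ε) {D : k[X]}
    (hD : Squarefree D) {m m' : ℕ} (hm : VanishesTo f D m) (hm' : VanishesTo f (C ε * D) m') :
    m + m' ≤ totalOrder f ε D :=
  le_csSup ⟨bound f.natDegree D, fun _ hs => bounded h2 hf hε hD hs⟩ ⟨m, m', hm, hm', rfl⟩

theorem primes_spec {D : k[X]} (_hD : D ≠ 0) {P : k[X]} (hP : P ∈ primes D) :
    P.Monic ∧ Irreducible P ∧ P ∣ D := by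
  unfold primes at hP
  rw [Multiset.mem_toFinset] at hP
  have h1 := UniqueFactorizationMonoid.irreducible_of_normalized_factor P hP
  refine ⟨?_, h1, UniqueFactorizationMonoid.dvd_of_mem_normalizedFactors hP⟩
  have h3 := UniqueFactorizationMonoid.normalize_normalized_factor P hP
  rw [← h3]
  exact monic_normalize h1.ne_zero

theorem bound_eq (n : ℕ) (D : k[X]) : bound n D =
    1 + ∑ P ∈ primes D, (Nat.gcd P.natDegree n - 1) * Pool.Agent.U695.LG.tp P.natDegree := rfl

theorem average (h2 : (2 : k) ≠ 0) (hf : IsAdmissible f) (hε : ¬ IsSquare ε) (d : ℕ) :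
    (∑ D ∈ family k d, (totalOrder f ε D : ℝ)) ≤
      (1 + 2 * ∑ e ∈ f.natDegree.divisors.erase 1, (Nat.totient e : ℝ) / e * dyadicSum (d / e)) *
        ((family k d).card : ℝ) := by
  have h := Pool.Agent.U695.LG.mean_bound (Pool.Agent.U695.LG.three_le h2) hf.odd d
    (fun D : k[X] => primes D) (fun D hD P hP =>
      primes_spec (Pool.Agent.U695.LG.mem_Sf.1 hD).1.ne_zero hP)
  refine (Finset.sum_le_sum fun D hD => ?_).trans h
  have h3 := total_le h2 hf hε (mem_family.1 hD).2.2
  rw [bound_eq] at h3
  exact_mod_cast h3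

theorem few (h2 : (2 : k) ≠ 0) (hf : IsAdmissible f) (hε : ¬ IsSquare ε) (d : ℕ) :
    FewExceptions f ε d (2 * ∑ p ∈ f.natDegree.primeFactors, 1 / (p : ℝ) * harmonicSum (d / p)) := by
  have h := Pool.Agent.U695.LG.few_bad (Pool.Agent.U695.LG.three_le h2) hf.odd d
    (fun D : k[X] => primes D) (fun D hD P hP =>
      primes_spec (Pool.Agent.U695.LG.mem_Sf.1 hD).1.ne_zero hP)
  refine le_trans ?_ h
  have h3 : ((family k d).filter fun D => 2 ≤ totalOrder f ε D).card ≤
      ((Pool.Agent.U695.LG.Sf k d).filter fun D => 2 ≤ 1 + ∑ P ∈ primes D,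
        (Nat.gcd P.natDegree f.natDegree - 1) * Pool.Agent.U695.LG.tp P.natDegree).card := by
    refine Finset.card_le_card fun D hD => ?_
    rw [Finset.mem_filter] at hD ⊢
    refine ⟨hD.1, hD.2.trans ?_⟩
    exact total_le h2 hf hε (mem_family.1 hD.1).2.2
  exact_mod_cast h3

/-- the elementary limit -/
theorem limit (A : ℕ) {δ : ℝ} (hδ : 0 < δ) : ∃ N : ℕ, ∀ n : ℕ, N ≤ n → ∀ d : ℕ, d ≤ n ^ A →
    2 * (1 / (n : ℝ) * (1 + Real.log ((d / n : ℕ) : ℝ))) ≤ δ := by
  have h1 : Filter.Tendsto (fun n : ℕ => 2 * (1 / (n : ℝ) * (1 + A * Real.log n))) Filter.atTop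
      (nhds 0) := by
    have h2 : Filter.Tendsto (fun n : ℕ => 1 / (n : ℝ)) Filter.atTop (nhds 0) :=
      tendsto_one_div_atTop_nhds_zero_nat
    have h3 : Filter.Tendsto (fun n : ℕ => Real.log n / n) Filter.atTop (nhds 0) := by
      have h4 := (Real.isLittleO_log_id_atTop.tendsto_div_nhds_zero).comp
        tendsto_natCast_atTop_atTop
      exact h4
    have h5 := (h2.const_mul 2).add ((h3.const_mul (2 * A : ℝ)))
    rw [mul_zero, mul_zero, add_zero] at h5
    refine h5.congr fun n => ?_
    ring
  obtain ⟨N, hN⟩ := Filter.eventually_atTop.1 (h1.eventually (gt_mem_nhds hδ))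
  refine ⟨max N 1, fun n hn d hd => ?_⟩
  have hn1 : 1 ≤ n := (le_max_right _ _).trans hn
  have hn0 : (0 : ℝ) < n := by exact_mod_cast hn1
  refine le_trans ?_ (hN n ((le_max_left _ _).trans hn)).le
  have h6 : Real.log ((d / n : ℕ) : ℝ) ≤ A * Real.log n := by
    rcases Nat.eq_zero_or_pos (d / n) with h | h
    · rw [h, Nat.cast_zero, Real.log_zero]
      have : 0 ≤ Real.log n := Real.log_natCast_nonneg n
      positivity
    · rw [← Real.log_pow]
      apply Real.log_le_log (by exact_mod_cast h)
      have h7 : d / n ≤ n ^ A := (Nat.div_le_self d n).trans hd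
      exact_mod_cast h7
  have h7 : (0 : ℝ) ≤ 1 / n := by positivity
  have h8 := mul_le_mul_of_nonneg_left (add_le_add_left h6 1) h7
  have h9 : 1 / (n : ℝ) * (1 + Real.log ((d / n : ℕ) : ℝ)) ≤ 1 / (n : ℝ) * (1 + A * Real.log n) :=
    mul_le_mul_of_nonneg_left (by linarith) h7
  linarith

end proof

theorem result :
    (∀ (k : Type) [Field k] [Finite k], (2 : k) ≠ 0 → ∀ f : k[X], IsAdmissible f →
      ∀ ε : k, ¬ IsSquare ε → ∀ d : ℕ,
      -- all orders of vanishing are bounded by `totalOrder`
      (∀ D ∈ family k d, ∀ m m' : ℕ, VanishesTo f D m → VanishesTo f (C ε * D) m' →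
        m + m' ≤ totalOrder f ε D) ∧
      -- the average
      (∑ D ∈ family k d, (totalOrder f ε D : ℝ)) ≤
        (1 + 2 * ∑ e ∈ f.natDegree.divisors.erase 1, (Nat.totient e : ℝ) / e * dyadicSum (d / e)) *
          ((family k d).card : ℝ) ∧
      (f.natDegree.Prime → (∑ D ∈ family k d, (totalOrder f ε D : ℝ)) ≤
        (1 + 2 * dyadicSum (d / f.natDegree)) * ((family k d).card : ℝ)) ∧
      -- the exceptions
      FewExceptions f ε d
        (2 * ∑ p ∈ f.natDegree.primeFactors, 1 / (p : ℝ) * harmonicSum (d / p)) ∧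
      ∀ D ∈ family k d, totalOrder f ε D ≤ 1 → ¬ VanishesTo f D 1 ∨ ¬ VanishesTo f (C ε * D) 1) ∧
    -- the sums
    (∀ t : ℕ, harmonicSum t ≤ 1 + Real.log t ∧
      dyadicSum t ≤ (1 + Nat.log 2 t) * (1 + Real.log t)) ∧
    -- the large genus limit
    ∀ (A : ℕ) (δ : ℝ), 0 < δ → ∃ N : ℕ, ∀ (k : Type) [Field k] [Finite k], (2 : k) ≠ 0 →
      ∀ f : k[X], IsAdmissible f → f.natDegree.Prime → N ≤ f.natDegree → ∀ ε : k, ¬ IsSquare ε →
      ∀ d : ℕ, d ≤ f.natDegree ^ A → FewExceptions f ε d δ := by
  refine ⟨fun k _ _ h2 f hf ε hε d => ⟨fun D hD m m' hm hm' =>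
      le_total h2 hf hε (mem_family.1 hD).2.2 hm hm', average h2 hf hε d, fun hp => ?_,
      few h2 hf hε d, fun D hD h => ?_⟩,
    fun t => ⟨Pool.Agent.U695.LG.S1_le t, Pool.Agent.U695.LG.S2_le t⟩, fun A δ hδ => ?_⟩
  · refine (average h2 hf hε d).trans (mul_le_mul_of_nonneg_right ?_ (Nat.cast_nonneg _))
    have h3 : f.natDegree.divisors.erase 1 = {f.natDegree} := by
      rw [hp.divisors]
      ext e
      rw [Finset.mem_erase, Finset.mem_insert, Finset.mem_singleton]
      constructor
      · rintro ⟨h4, h5 | h5⟩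
        · exact absurd h5 h4
        · exact h5
      · rintro rfl
        exact ⟨hp.one_lt.ne', Or.inr rfl⟩
    rw [h3, Finset.sum_singleton]
    have h4 : (Nat.totient f.natDegree : ℝ) / f.natDegree ≤ 1 := by
      rw [div_le_one (by exact_mod_cast hp.pos)]
      exact_mod_cast Nat.totient_le _
    have h5 : 0 ≤ dyadicSum (d / f.natDegree) := Finset.sum_nonneg fun j _ => by positivity
    nlinarith
  · by_contra hno
    push Not at hno
    have := le_total h2 hf hε (mem_family.1 hD).2.2 hno.1 hno.2
    omega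
  · obtain ⟨N, hN⟩ := limit A hδ
    refine ⟨N, fun k _ _ h2 f hf hp hn ε hε d hd => ?_⟩
    have h3 := few h2 hf hε d
    unfold FewExceptions at h3 ⊢
    refine h3.trans (mul_le_mul_of_nonneg_right ?_ (Nat.cast_nonneg _))
    rw [hp.primeFactors, Finset.sum_singleton]
    refine le_trans ?_ (hN _ hn d hd)
    refine mul_le_mul_of_nonneg_left ?_ (by norm_num)
    refine mul_le_mul_of_nonneg_left ?_ (by positivity)
    exact Pool.Agent.U695.LG.S1_le _

end Pool.Agent.Results.MP_60d5ce_nt.LargeGenusTwists
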