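import Pool.Agent.U407.PS3

/-!
# Jacobians of Artin–Schreier curves with a given Newton polygon: average order of vanishing, and
# positive proportion of order zero over all elementary abelian `p`-extensions of the base

Let `k` be the field with `q = p^s` elements. Fix a polygon with the vertices `V_0 = (B, 0)`,
`V_1, …, V_{n-1}` above the horizontal axis and `V_n = (-B', 0)`, `B, B' > 0`, counterclockwise and
strictly convex, the determinant `D_i` of `V_i` and `V_{i+1}` dividing `p - 1` for all `i`, and a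
finite set `D` of exponents in its interior. We consider the family of all the curves

  `y^p - y = f(x, t) / t^c`,  `f / t^c = ∑ γ_i t^(V_i.1) x^(V_i.2) + ∑_{u ∈ D} φ_u t^(u.1) x^(u.2)`

with arbitrary coefficients `γ_i ≠ 0` and `φ_u` in `k`; it has `(q - 1)^(n + 1) q^(#D)` members. A
member is considered over the function field `F` of any curve `z_l^p - z_l = h_l(t) / t^c`,
`l < r`, for which the exponents of the `h_l(t) / t^c` lie strictly between `-B'` and `B`; let `J`
be its Jacobian over `F`. The function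

  `L(T) = exp (∑_{n ≥ 1} (q^n S_n - N_n) T^n / n)`,

`N_n` and `S_n` being the numbers of the points over the field with `q^n` elements of the affine
surface and of the affine curve given by these equations, is the `L`-function of `J` over `F`, up to
the Euler factors above `t = 0` and `t = ∞`; the central point is `T = 1 / q`.

* For each member the order of vanishing `ρ` of `L` at `T = 1 / q` is at most
  `p^r (p - 1) (∑_i e_i - 2)`, where `e_i` is the number of the irreducible factors over `k` of the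
  binomial of the `i`-th edge, and the `p`-adic valuation of the leading coefficient is at least
  `-N`, with equality if and only if the order is equal to the bound.
* The average of `ρ` over the family is at most `p^r (p - 1) (∑_i P(g_i) / g_i - 2)`, where `g_i` is
  the lattice length of the `i`-th edge and `P(g) = ∑_{j < g} gcd (j, g)`. The bound does not depend
  on `q`, on `D` and on the choice of the `h_l` (which may vary with the member).
* For a proportion of at least `∏_i φ(g_i) / g_i` of the members the order is at most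
  `p^r (p - 1) (n - 2)` over all the fields `F`, that is for all `r` and all `h_l`. For triangles,
  `n = 2`: for this proportion `L` does not vanish at `T = 1 / q` over any of the fields `F`, so
  the order and the rank of `J(F)` are zero, and the `p`-adic valuation of `L(1/q)` is exactly `-N`.

The first item is the case of one covering equation of the Dwork-theoretic main theorem of the
starting library (`Pool.Agent.N867.AS.Y20`), where it is assumed that the Newton polygons of all the
combinations of `f` and the `h_l` are given; the statistics over the family (the other items, with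
the distribution of the numbers of factors of the binomials) are new here.
-/

set_option autoImplicit false

namespace Pool.Agent.Results.MP_60d5ce_nt.PolygonStatistics

open Polynomial

/-- The determinant `D_i` of the vectors `V_i` and `V_{i+1}`. -/
def det (V : ℕ → ℤ × ℕ) (i : ℕ) : ℤ :=
  (V i).1 * (V (i + 1)).2 - (V i).2 * (V (i + 1)).1

/-- The linear form `l_i` with value `D_i` at `V_i` and at `V_{i+1}`. -/
def form (V : ℕ → ℤ × ℕ) (i : ℕ) (u : ℤ × ℕ) : ℤ :=
  u.1 * (((V (i + 1)).2 : ℤ) - (V i).2) - u.2 * ((V (i + 1)).1 - (V i).1)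

/-- `V_0, V_1, …, V_n` are, counterclockwise, the vertices of a convex polygon; `V_0 = (B, 0)` and
`V_n = (-B', 0)` with `B, B' > 0`, and `V_1, …, V_{n-1}` are above the horizontal axis. For `i < n`
the `D_i` is positive and divides `p - 1`, and the vertices other than `V_i` and `V_{i+1}` lie
strictly on the side of the origin of the line through these two. The pole order in `t` is at
most `c`. -/
structure IsPolygon (p c n : ℕ) (V : ℕ → ℤ × ℕ) : Prop where
  first : (V 0).2 = 0 ∧ 0 < (V 0).1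
  last : (V n).2 = 0 ∧ (V n).1 < 0
  above : ∀ i, 0 < i → i < n → 0 < (V i).2
  size : ∀ i < n, 0 < det V i ∧ det V i ∣ ((p - 1 : ℕ) : ℤ)
  convex : ∀ i < n, ∀ j ≤ n, j ≠ i → j ≠ i + 1 → form V i (V j) < det V i
  pole : ∀ i ≤ n, -(c : ℤ) ≤ (V i).1

/-- The exponent `u` lies strictly on the side of the origin of all the edges `V_i V_{i+1}`, and its
pole order in `t` is at most `c`. -/
def IsInterior (c n : ℕ) (V : ℕ → ℤ × ℕ) (u : ℤ × ℕ) : Prop :=
  -(c : ℤ) ≤ u.1 ∧ ∀ i < n, form V i u < det V i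

/-- The exponents of `h(t) / t^c` lie strictly between `-B'` and `B`. -/
def IsBase {k : Type} [Field k] (c n : ℕ) (V : ℕ → ℤ × ℕ) (h : k[X]) : Prop :=
  ∀ e : ℕ, h.coeff e ≠ 0 → (V n).1 < (e : ℤ) - c ∧ (e : ℤ) - c < (V 0).1

/-- The members of the family: the nonzero coefficients at the vertices, and the coefficients at the
exponents in `D`. -/
abbrev Member (k : Type) [Field k] (n : ℕ) (D : Finset (ℤ × ℕ)) : Type :=
  (Fin (n + 1) → kˣ) × (D → k)

/-- The monomial `a t^(u.1 + c) x^(u.2)` (outer variable `t`, inner variable `x`). -/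
noncomputable def monom {k : Type} [Field k] (c : ℕ) (u : ℤ × ℕ) (a : k) : k[X][X] :=
  monomial (u.1 + c).toNat (monomial u.2 a)

/-- The polynomial `f`: thus `f / t^c = ∑ γ_i t^(V_i.1) x^(V_i.2) + ∑_{u ∈ D} φ_u t^(u.1) x^(u.2)`
for the member `(γ, φ)`. -/
noncomputable def poly {k : Type} [Field k] (c n : ℕ) (V : ℕ → ℤ × ℕ) (D : Finset (ℤ × ℕ))
    (m : Member k n D) : k[X][X] :=
  ∑ i : Fin (n + 1), monom c (V i) (m.1 i : k) + ∑ u : D, monom c u.1 (m.2 u)

/-- The lattice length `g_i` of the `i`-th edge. -/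
def len (V : ℕ → ℤ × ℕ) (i : ℕ) : ℕ :=
  Int.gcd ((V (i + 1)).1 - (V i).1) (((V (i + 1)).2 : ℤ) - (V i).2)

/-- The binomial `γ_{i+1} X^(g_i) + γ_i` of the `i`-th edge. -/
noncomputable def edge {k : Type} [Field k] {n : ℕ} (V : ℕ → ℤ × ℕ) {D : Finset (ℤ × ℕ)}
    (m : Member k n D) (i : Fin n) : k[X] :=
  C (m.1 i.succ : k) * X ^ len V i + C (m.1 i.castSucc : k)

/-- The average of a function over the family. -/
noncomputable def average {k : Type} [Field k] {n : ℕ} {D : Finset (ℤ × ℕ)}
    (F : Member k n D → ℚ) : ℚ :=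
  (∑ᶠ m, F m) / Nat.card (Member k n D)

/-- The proportion of the members of the family with a property. -/
noncomputable def proportion {k : Type} [Field k] {n : ℕ} {D : Finset (ℤ × ℕ)}
    (Q : Member k n D → Prop) : ℚ :=
  (Nat.card {m // Q m} : ℚ) / Nat.card (Member k n D)

/-- The number of irreducible factors. -/
noncomputable def numFactors {k : Type} [Field k] (P : k[X]) : ℕ :=
  (UniqueFactorizationMonoid.factors P).card

/-- `P(g) = ∑_{j < g} gcd (j, g)`. -/
def gcdSum (g : ℕ) : ℕ := ∑ j ∈ Finset.range g, Nat.gcd j g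

/-- The weight of `u`: the maximum of `0` and the `l_i(u) / D_i`, `0 ≤ i < n`. -/
def weight (V : ℕ → ℤ × ℕ) (n : ℕ) (u : ℤ × ℕ) : ℚ :=
  (Finset.range n).fold max 0 fun i => (form V i u : ℚ) / (det V i : ℚ)

/-- The sum of `1 - weight(u)` over all `u ∈ ℤ × ℕ` above the horizontal axis with
`weight(u) < 1`. -/
noncomputable def hodge (V : ℕ → ℤ × ℕ) (n : ℕ) : ℚ :=
  ∑ᶠ u ∈ {u : ℤ × ℕ | 0 < u.2 ∧ weight V n u < 1}, (1 - weight V n u)

/-- The value `h(t)` at an element `t` of an algebraic closure of `k`. -/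
noncomputable def baseValue {k : Type} [Field k] (h : k[X]) (t : AlgebraicClosure k) :
    AlgebraicClosure k :=
  h.eval₂ (algebraMap k (AlgebraicClosure k)) t

/-- The value `f(x, t)` at a point with coordinates in an algebraic closure of `k`. -/
noncomputable def value {k : Type} [Field k] (f : k[X][X]) (x t : AlgebraicClosure k) :
    AlgebraicClosure k :=
  f.eval₂ (eval₂RingHom (algebraMap k (AlgebraicClosure k)) x) t

/-- The number of `(t, z_1, …, z_r)` with coordinates in `F_Q = {z : z^Q = z}` such that `t ≠ 0`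
and `(z_l^p - z_l) t^c = h_l(t)` for all `l`. -/
noncomputable def basePoints {k : Type} [Field k] (p c : ℕ) {r : ℕ} (h : Fin r → k[X]) (Q : ℕ) :
    ℕ :=
  Nat.card {v : AlgebraicClosure k × (Fin r → AlgebraicClosure k) //
    v.1 ^ Q = v.1 ∧ v.1 ≠ 0 ∧ (∀ l, v.2 l ^ Q = v.2 l) ∧
    ∀ l, (v.2 l ^ p - v.2 l) * v.1 ^ c = baseValue (h l) v.1}

/-- The number of `(x, t, y, z_1, …, z_r)` with coordinates in `F_Q = {z : z^Q = z}` such that
`t ≠ 0`, `(y^p - y) t^c = f(x, t)` and `(z_l^p - z_l) t^c = h_l(t)` for all `l`. -/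
noncomputable def points {k : Type} [Field k] (p c : ℕ) {r : ℕ} (f : k[X][X])
    (h : Fin r → k[X]) (Q : ℕ) : ℕ :=
  Nat.card {v : AlgebraicClosure k × AlgebraicClosure k × AlgebraicClosure k ×
      (Fin r → AlgebraicClosure k) //
    v.1 ^ Q = v.1 ∧ v.2.1 ^ Q = v.2.1 ∧ v.2.1 ≠ 0 ∧ v.2.2.1 ^ Q = v.2.2.1 ∧
    (∀ l, v.2.2.2 l ^ Q = v.2.2.2 l) ∧
    (v.2.2.1 ^ p - v.2.2.1) * v.2.1 ^ c = value f v.1 v.2.1 ∧
    ∀ l, (v.2.2.2 l ^ p - v.2.2.2 l) * v.2.1 ^ c = baseValue (h l) v.2.1}

/-- The power series `∑_{n ≥ 1} (q^n S_n - N_n) T^n`, where `q = #k`,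
`S_n = basePoints p c h (q^n)` and `N_n = points p c f h (q^n)`. -/
noncomputable def traces {k : Type} [Field k] [Fintype k] (p c : ℕ) {r : ℕ} (f : k[X][X])
    (h : Fin r → k[X]) : PowerSeries ℚ :=
  PowerSeries.mk fun n => if n = 0 then 0 else
    ((Fintype.card k : ℚ) ^ n * (basePoints p c h (Fintype.card k ^ n) : ℚ) -
      (points p c f h (Fintype.card k ^ n) : ℚ))

/-- `L(T) = exp (∑_{n ≥ 1} (q^n S_n - N_n) T^n / n)`: that is, `L(0) = 1` and
`T L' = L ∑_{n ≥ 1} (q^n S_n - N_n) T^n`. -/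
def IsLFunction {k : Type} [Field k] [Fintype k] (p c : ℕ) {r : ℕ} (f : k[X][X])
    (h : Fin r → k[X]) (L : ℚ[X]) : Prop :=
  L.coeff 0 = 1 ∧
    PowerSeries.X * PowerSeries.derivative ℚ (L : PowerSeries ℚ) =
      (L : PowerSeries ℚ) * traces p c f h

/-- `L` has at `T = 1 / q` the order of vanishing `ρ` and the leading coefficient `a`:
`L = (1 - q T)^ρ M` with `M(1/q) = a ≠ 0`. -/
def HasOrder (q : ℕ) (L : ℚ[X]) (ρ : ℕ) (a : ℚ) : Prop :=
  ∃ M : ℚ[X], L = (1 - C (q : ℚ) * X) ^ ρ * M ∧ M.eval (1 / (q : ℚ)) = a ∧ a ≠ 0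

section lemmas

open Pool.Agent.N867.AS Pool.Agent.N867.AS.Pg Pool.Agent.U407.PS

theorem form_left (V : ℕ → ℤ × ℕ) (i : ℕ) : form V i (V i) = det V i := by
  unfold form det
  ring

theorem form_right (V : ℕ → ℤ × ℕ) (i : ℕ) : form V i (V (i + 1)) = det V i := by
  unfold form det
  ring

theorem vertex_inj {p c n : ℕ} {V : ℕ → ℤ × ℕ} (hV : IsPolygon p c n V) :
    ∀ i j, i < j → j ≤ n → V i ≠ V j := by
  intro i j hij hj h
  by_cases h1 : j = i + 1
  · have h2 := (hV.size i (by omega)).1
    rw [h1] at h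
    unfold det at h2
    rw [← h] at h2
    have h3 : (V i).1 * ((V i).2 : ℤ) - (V i).2 * (V i).1 = 0 := by ring
    omega
  · have h2 := hV.convex i (by omega) j hj (by omega) h1
    rw [← h, form_left] at h2
    exact lt_irrefl _ h2

theorem pos_n {p c n : ℕ} {V : ℕ → ℤ × ℕ} (hV : IsPolygon p c n V) : 2 ≤ n := by
  have h0 := hV.first
  have hn := hV.last
  rcases Nat.lt_or_ge n 2 with h | h
  · exfalso
    interval_cases n
    · omega
    · have h1 := (hV.size 0 (by norm_num)).1
      unfold det at h1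
      rw [zero_add, hn.1, h0.1] at h1
      simp at h1
  · exact h

theorem interior_ne {p c n : ℕ} {V : ℕ → ℤ × ℕ} (hV : IsPolygon p c n V) {u : ℤ × ℕ}
    (hu : IsInterior c n V u) : ∀ i ≤ n, V i ≠ u := by
  intro i hi h
  have hn := pos_n hV
  rcases hi.lt_or_eq with h1 | h1
  · have h2 := hu.2 i h1
    rw [← h, form_left] at h2
    exact lt_irrefl _ h2
  · have h2 := hu.2 (i - 1) (by omega)
    have h3 := form_right V (i - 1)
    rw [Nat.sub_add_cancel (by omega)] at h3
    rw [← h, h3] at h2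
    exact lt_irrefl _ h2

variable {k : Type} [Field k]

theorem coA_monom {c : ℕ} {w : ℤ × ℕ} (hw : -(c : ℤ) ≤ w.1) (a : k) (u : ℤ × ℕ) :
    coA (monom c w a) c u = if w = u then a else 0 := by
  unfold coA monom
  split_ifs with h1 h2 h2
  · rw [h2, coeff_monomial, if_pos rfl, coeff_monomial, if_pos rfl]
  · rw [coeff_monomial]
    split_ifs with h3
    · rw [coeff_monomial, if_neg]
      intro h4
      apply h2
      refine Prod.ext ?_ h4
      omega
    · rw [coeff_zero]
  · exfalso
    rw [h2] at hw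
    omega
  · rfl

theorem coA_add (f g : k[X][X]) (c : ℕ) (u : ℤ × ℕ) : coA (f + g) c u = coA f c u + coA g c u := by
  unfold coA
  split_ifs with h
  · rw [coeff_add, coeff_add]
  · rw [add_zero]

theorem coA_sum {ι : Type} (S : Finset ι) (f : ι → k[X][X]) (c : ℕ) (u : ℤ × ℕ) :
    coA (∑ i ∈ S, f i) c u = ∑ i ∈ S, coA (f i) c u := by
  unfold coA
  split_ifs with h
  · rw [finsetSum_coeff, finsetSum_coeff]
  · rw [Finset.sum_const_zero]

theorem coA_poly {p c n : ℕ} {V : ℕ → ℤ × ℕ} (hV : IsPolygon p c n V) {D : Finset (ℤ × ℕ)}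
    (hD : ∀ u ∈ D, IsInterior c n V u) (m : Member k n D) (u : ℤ × ℕ) :
    coA (poly c n V D m) c u = (∑ i : Fin (n + 1), if V i = u then (m.1 i : k) else 0) +
      ∑ w : D, if w.1 = u then m.2 w else 0 := by
  unfold poly
  rw [coA_add, coA_sum, coA_sum]
  congr 1
  · exact Finset.sum_congr rfl fun i _ => coA_monom (hV.pole i (Nat.lt_succ_iff.1 i.2)) _ _
  · exact Finset.sum_congr rfl fun w _ => coA_monom (hD w.1 w.2).1 _ _

theorem coA_vertex {p c n : ℕ} {V : ℕ → ℤ × ℕ} (hV : IsPolygon p c n V) {D : Finset (ℤ × ℕ)}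
    (hD : ∀ u ∈ D, IsInterior c n V u) (m : Member k n D) (i : Fin (n + 1)) :
    coA (poly c n V D m) c (V i) = (m.1 i : k) := by
  have hi := Nat.lt_succ_iff.1 i.2
  rw [coA_poly hV hD, Finset.sum_eq_single i, Finset.sum_eq_zero, add_zero, if_pos rfl]
  · intro w _
    exact if_neg fun h => interior_ne hV (hD w.1 w.2) i hi h.symm
  · intro j _ hj
    refine if_neg fun h => ?_
    have hj' := Nat.lt_succ_iff.1 j.2
    rcases lt_trichotomy (i : ℕ) (j : ℕ) with h1 | h1 | h1
    · exact vertex_inj hV i j h1 hj' h.symm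
    · exact hj (Fin.ext h1.symm)
    · exact vertex_inj hV j i h1 hi h
  · intro h
    exact absurd (Finset.mem_univ i) h

theorem coA_ne {p c n : ℕ} {V : ℕ → ℤ × ℕ} (hV : IsPolygon p c n V) {D : Finset (ℤ × ℕ)}
    (hD : ∀ u ∈ D, IsInterior c n V u) (m : Member k n D) (u : ℤ × ℕ)
    (hu : coA (poly c n V D m) c u ≠ 0) : ∀ i < n, form V i u ≤ det V i ∧
      (form V i u = det V i → u = V i ∨ u = V (i + 1)) := by
  intro i hi
  rw [coA_poly hV hD] at hu
  by_cases h1 : ∑ j : Fin (n + 1), (if V j = u then (m.1 j : k) else 0) = 0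
  · rw [h1, zero_add] at hu
    obtain ⟨w, -, hw⟩ := Finset.exists_ne_zero_of_sum_ne_zero hu
    have hw' : w.1 = u := by
      by_contra h2
      exact hw (if_neg h2)
    have h3 := (hD w.1 w.2).2 i hi
    rw [hw'] at h3
    exact ⟨h3.le, fun h4 => absurd h4 h3.ne⟩
  · obtain ⟨j, -, hj⟩ := Finset.exists_ne_zero_of_sum_ne_zero h1
    have hj' : V j = u := by
      by_contra h2
      exact hj (if_neg h2)
    have hjn := Nat.lt_succ_iff.1 j.2
    by_cases h2 : (j : ℕ) = i
    · rw [← hj', h2, form_left]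
      exact ⟨le_rfl, fun _ => Or.inl rfl⟩
    · by_cases h3 : (j : ℕ) = i + 1
      · rw [← hj', h3, form_right]
        exact ⟨le_rfl, fun _ => Or.inr rfl⟩
      · have h4 := hV.convex i hi j hjn h2 h3
        rw [hj'] at h4
        exact ⟨h4.le, fun h5 => absurd h5 h4.ne⟩

theorem points_eq (p c : ℕ) {r : ℕ} (f : k[X][X]) (h : Fin r → k[X]) (Q : ℕ) :
    points p c f h Q = NDC p c (fun _ : Fin 1 => f) h Q := by
  unfold points NDC
  refine Nat.card_congr
    { toFun := fun v => ⟨(v.1.1, v.1.2.1, fun _ => v.1.2.2.1, v.1.2.2.2),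
        v.2.1, v.2.2.1, v.2.2.2.1, fun _ => v.2.2.2.2.1, v.2.2.2.2.2.1, fun _ => v.2.2.2.2.2.2.1,
        v.2.2.2.2.2.2.2⟩
      invFun := fun v => ⟨(v.1.1, v.1.2.1, v.1.2.2.1 0, v.1.2.2.2),
        v.2.1, v.2.2.1, v.2.2.2.1, v.2.2.2.2.1 0, v.2.2.2.2.2.1, v.2.2.2.2.2.2.1 0,
        v.2.2.2.2.2.2.2⟩
      left_inv := fun v => rfl
      right_inv := fun v => ?_ }
  apply Subtype.ext
  refine Prod.ext rfl (Prod.ext rfl (Prod.ext ?_ rfl))
  funext j
  rw [Subsingleton.elim j 0]

variable [Fintype k]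

theorem len_dvd {p : ℕ} [CharP k p] {s : ℕ} (hs : Fintype.card k = p ^ s) {c n : ℕ}
    {V : ℕ → ℤ × ℕ} (hV : IsPolygon p c n V) {i : ℕ} (hi : i < n) :
    0 < len V i ∧ len V i ∣ Fintype.card k - 1 := by
  have h1 : ((len V i : ℕ) : ℤ) ∣ det V i := by
    have h2 : det V i = (((V (i + 1)).2 : ℤ) - (V i).2) * (V i).1 -
        ((V (i + 1)).1 - (V i).1) * (V i).2 := by
      unfold det
      ring
    rw [h2]
    exact dvd_sub ((Int.gcd_dvd_right _ _).mul_right _) ((Int.gcd_dvd_left _ _).mul_right _)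
  constructor
  · rw [Nat.pos_iff_ne_zero]
    intro h
    rw [h, Nat.cast_zero, zero_dvd_iff] at h1
    have := (hV.size i hi).1
    omega
  · have h2 := h1.trans (hV.size i hi).2
    have h3 : len V i ∣ p - 1 := by exact_mod_cast h2
    rw [hs]
    exact h3.trans (Nat.sub_one_dvd_pow_sub_one p s)

theorem numFactors_edge {p : ℕ} [CharP k p] {s : ℕ} (hs : Fintype.card k = p ^ s) {c n : ℕ}
    {V : ℕ → ℤ × ℕ} (hV : IsPolygon p c n V) {D : Finset (ℤ × ℕ)} (m : Member k n D) (i : Fin n) :
    numFactors (edge V m i) = nf (len V i) (m.1 i.castSucc / m.1 i.succ) := by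
  obtain ⟨h1, h2⟩ := len_dvd hs hV i.2
  unfold numFactors edge nf
  rw [card_factors h1.ne' h2 (m.1 i.castSucc).ne_zero (m.1 i.succ).ne_zero, Units.val_neg,
    Units.val_div_eq_div_val, neg_div]

theorem pointwise (p : ℕ) (hp : p.Prime) [CharP k p] (s : ℕ) (hs : Fintype.card k = p ^ s)
    (c : ℕ) (hc : c ≠ 0) (n : ℕ) (V : ℕ → ℤ × ℕ) (hV : IsPolygon p c n V) (D : Finset (ℤ × ℕ))
    (hD : ∀ u ∈ D, IsInterior c n V u) (m : Member k n D) (r : ℕ) (h : Fin r → k[X])
    (hh : ∀ l, IsBase c n V (h l)) (L : ℚ[X]) (hL : IsLFunction p c (poly c n V D m) h L)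
    (ρ : ℕ) (a : ℚ) (hρ : HasOrder (Fintype.card k) L ρ a) :
    ρ ≤ p ^ r * (p - 1) * (∑ i, numFactors (edge V m i) - 2) ∧
      -((s * (p ^ r * (p - 1)) : ℕ) : ℚ) * hodge V n ≤ (padicValRat p a : ℚ) ∧
      ((padicValRat p a : ℚ) = -((s * (p ^ r * (p - 1)) : ℕ) : ℚ) * hodge V n ↔
        ρ = p ^ r * (p - 1) * (∑ i, numFactors (edge V m i) - 2)) := by
  obtain ⟨M, hLM, hM, ha⟩ := hρ
  rw [← hM] at ha ⊢
  have hL2 := hL.2
  unfold traces at hL2
  simp only [points_eq] at hL2
  refine one p hp s hs c hc r (poly c n V D m) h n V hV.first hV.last hV.above hV.size ?_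
    (fun u hu i hi => coA_ne hV hD m u hu i hi) hh L hL.1 hL2 ρ M hLM ha ?_
  · intro i hi
    have h1 := coA_vertex hV hD m ⟨i, Nat.lt_succ_iff.2 hi⟩
    simp only at h1
    rw [h1]
    exact (m.1 _).ne_zero
  · congr 2
    rw [Finset.sum_range]
    refine Finset.sum_congr rfl fun i _ => ?_
    unfold numFactors edge
    have h1 := coA_vertex hV hD m i.succ
    have h2 := coA_vertex hV hD m i.castSucc
    rw [Fin.val_succ] at h1
    rw [Fin.val_castSucc] at h2
    rw [h1, h2]
    rfl

theorem two_le {p : ℕ} [CharP k p] {s : ℕ} (hs : Fintype.card k = p ^ s) {c n : ℕ}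
    {V : ℕ → ℤ × ℕ} (hV : IsPolygon p c n V) {D : Finset (ℤ × ℕ)} (m : Member k n D) :
    2 ≤ ∑ i, numFactors (edge V m i) := by
  have h1 : ∀ i : Fin n, 1 ≤ numFactors (edge V m i) := by
    intro i
    rw [numFactors_edge hs hV]
    exact eC_pos _ _ (len_dvd hs hV i.2).1
  calc 2 ≤ n := pos_n hV
    _ = ∑ _i : Fin n, 1 := by simp
    _ ≤ _ := Finset.sum_le_sum fun i _ => h1 i

theorem card_member {n : ℕ} {D : Finset (ℤ × ℕ)} :
    (Nat.card (Member k n D) : ℚ) =
      ((Fintype.card k - 1 : ℕ) : ℚ) ^ (n + 1) * Nat.card (D → k) := by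
  rw [Nat.card_prod, Nat.card_fun, card_units', Nat.card_eq_fintype_card, Fintype.card_fin]
  push_cast
  ring

theorem card_member_pos {n : ℕ} {D : Finset (ℤ × ℕ)} :
    (0 : ℚ) < Nat.card (Member k n D) := by
  exact_mod_cast Nat.card_pos

theorem average_bound {p : ℕ} [CharP k p] {s : ℕ} (hs : Fintype.card k = p ^ s) {c n : ℕ}
    {V : ℕ → ℤ × ℕ} (hV : IsPolygon p c n V) {D : Finset (ℤ × ℕ)} (K : ℕ) :
    average (fun m : Member k n D => ((K * (∑ i, numFactors (edge V m i) - 2) : ℕ) : ℚ)) =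
      K * (∑ i : Fin n, (gcdSum (len V i) : ℚ) / len V i - 2) := by
  classical
  unfold average
  rw [div_eq_iff card_member_pos.ne', finsum_eq_sum_of_fintype]
  have h1 : ∀ m : Member k n D, ((K * (∑ i, numFactors (edge V m i) - 2) : ℕ) : ℚ) =
      K * ∑ i : Fin n, (nf (len V i) (m.1 i.castSucc / m.1 i.succ) : ℚ) - K * 2 := by
    intro m
    rw [Nat.cast_mul, Nat.cast_sub (two_le hs hV m), Nat.cast_sum,
      Finset.sum_congr rfl fun i _ => by rw [numFactors_edge hs hV m i]]
    push_cast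
    ring
  rw [Finset.sum_congr rfl fun m _ => h1 m, Finset.sum_sub_distrib, Finset.sum_const,
    ← Finset.mul_sum, Fintype.sum_prod_type]
  simp only [Finset.sum_const, nsmul_eq_mul]
  have hM : ((Finset.univ : Finset (Member k n D)).card : ℚ) =
      ((Fintype.card k - 1 : ℕ) : ℚ) ^ (n + 1) * Nat.card (D → k) := by
    rw [Finset.card_univ, ← Nat.card_eq_fintype_card, card_member]
  have hΦ : ((Finset.univ : Finset (D → k)).card : ℚ) = Nat.card (D → k) := by
    rw [Finset.card_univ, ← Nat.card_eq_fintype_card]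
  rw [← Finset.mul_sum, avg n (fun i => len V i) (fun i => (len_dvd hs hV i.2).1)
    (fun i => (len_dvd hs hV i.2).2), hM, hΦ, card_member]
  have h2 : ∀ g, pillai g = gcdSum g := fun _ => rfl
  simp only [h2]
  ring

theorem average_mono {n : ℕ} {D : Finset (ℤ × ℕ)} {F G : Member k n D → ℚ}
    (h : ∀ m, F m ≤ G m) : average F ≤ average G := by
  classical
  unfold average
  rw [finsum_eq_sum_of_fintype, finsum_eq_sum_of_fintype]
  exact div_le_div_of_nonneg_right (Finset.sum_le_sum fun m _ => h m) card_member_pos.le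

theorem proportion_mono {n : ℕ} {D : Finset (ℤ × ℕ)} {P Q : Member k n D → Prop}
    (h : ∀ m, P m → Q m) : proportion P ≤ proportion Q := by
  unfold proportion
  refine div_le_div_of_nonneg_right ?_ card_member_pos.le
  exact_mod_cast Nat.card_le_card_of_injective
    (fun m : {m // P m} => (⟨m.1, h m.1 m.2⟩ : {m // Q m})) fun x y hxy =>
      Subtype.ext (congrArg (fun z => z.1) hxy)

theorem proportion_irreducible {p : ℕ} [CharP k p] {s : ℕ} (hs : Fintype.card k = p ^ s)
    {c n : ℕ} {V : ℕ → ℤ × ℕ} (hV : IsPolygon p c n V) {D : Finset (ℤ × ℕ)} :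
    proportion (fun m : Member k n D => ∀ i, numFactors (edge V m i) = 1) =
      ∏ i : Fin n, (Nat.totient (len V i) : ℚ) / len V i := by
  classical
  unfold proportion
  rw [div_eq_iff card_member_pos.ne']
  have h1 : Nat.card {m : Member k n D // ∀ i, numFactors (edge V m i) = 1} =
      Nat.card {γ : Fin (n + 1) → kˣ // ∀ i : Fin n,
        nf (len V i) (γ i.castSucc / γ i.succ) = 1} * Nat.card (D → k) := by
    rw [← Nat.card_prod]
    refine Nat.card_congr
      { toFun := fun m => (⟨m.1.1, fun i => by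
          rw [← numFactors_edge hs hV m.1 i]
          exact m.2 i⟩, m.1.2)
        invFun := fun m => ⟨(m.1.1, m.2), fun i => by
          rw [numFactors_edge hs hV]
          exact m.1.2 i⟩
        left_inv := fun m => rfl
        right_inv := fun m => rfl }
  rw [h1, Nat.cast_mul, Nat.card_eq_fintype_card (α := {γ : Fin (n + 1) → kˣ // ∀ i : Fin n,
    nf (len V i) (γ i.castSucc / γ i.succ) = 1}), Fintype.card_subtype,
    Pool.Agent.U407.PS.proportion n (fun i => len V i) (fun i => (len_dvd hs hV i.2).1)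
    (fun i => (len_dvd hs hV i.2).2), card_member]
  ring

end lemmas

/-- Let `k` be the field with `q = p^s` elements, `V_0, …, V_n` a polygon as in `IsPolygon` with the
lattice lengths `g_i` of its edges, and `D` a finite set of interior exponents. For a member
`m = (γ, φ)` of the family of all `f` with nonzero coefficients `γ_i` at the vertices and arbitrary
coefficients `φ_u` at the exponents in `D`, let `e_i` be the number of irreducible factors of the
binomial `γ_{i+1} X^(g_i) + γ_i`. Let `h_1, …, h_r` be such that the exponents of the `h_l(t) / t^c`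
lie strictly between those of `V_n` and `V_0`, and let `L` be the `L`-function of the Jacobian of
`y^p - y = f(x, t) / t^c` over the function field of `z_l^p - z_l = h_l(t) / t^c` without the Euler
factors above `t = 0` and `t = ∞`, of order `ρ` and leading coefficient `a` at `T = 1 / q`. Put
`N = s p^r (p - 1) hodge(V)`. Then:

(1) `ρ ≤ p^r (p - 1) (∑ e_i - 2)` and `v_p(a) ≥ -N`, with equality in the second inequality if and
only if there is equality in the first one;

(2) the average of `ρ` over all the members, where the `h_l` may depend on the member, is at most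
`p^r (p - 1) (∑ P(g_i) / g_i - 2)`, `P(g) = ∑_{j < g} gcd (j, g)`; this is the exact average of the
bounds in (1);

(3) for a proportion of at least `∏ φ(g_i) / g_i` of the members `ρ ≤ p^r (p - 1) (n - 2)` holds for
all `r` and all `h_1, …, h_r`; and if `n = 2`, for a proportion of at least
`φ(g_0) φ(g_1) / (g_0 g_1)` of the members `L(1/q) ≠ 0` and `v_p(L(1/q)) = -N` for all `r` and all
`h_1, …, h_r`. -/
theorem result (p : ℕ) (hp : p.Prime) (k : Type) [Field k] [Fintype k] [CharP k p] (s : ℕ)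
    (hs : Fintype.card k = p ^ s) (c : ℕ) (hc : c ≠ 0) (n : ℕ) (V : ℕ → ℤ × ℕ)
    (hV : IsPolygon p c n V) (D : Finset (ℤ × ℕ)) (hD : ∀ u ∈ D, IsInterior c n V u) :
    (∀ (m : Member k n D) (r : ℕ) (h : Fin r → k[X]) (L : ℚ[X]) (ρ : ℕ) (a : ℚ),
      (∀ l, IsBase c n V (h l)) → IsLFunction p c (poly c n V D m) h L →
      HasOrder (Fintype.card k) L ρ a →
        ρ ≤ p ^ r * (p - 1) * (∑ i, numFactors (edge V m i) - 2) ∧
        -((s * (p ^ r * (p - 1)) : ℕ) : ℚ) * hodge V n ≤ (padicValRat p a : ℚ) ∧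
        ((padicValRat p a : ℚ) = -((s * (p ^ r * (p - 1)) : ℕ) : ℚ) * hodge V n ↔
          ρ = p ^ r * (p - 1) * (∑ i, numFactors (edge V m i) - 2))) ∧
    (∀ (r : ℕ) (h : Member k n D → Fin r → k[X]) (L : Member k n D → ℚ[X])
      (ρ : Member k n D → ℕ) (a : Member k n D → ℚ),
      (∀ m l, IsBase c n V (h m l)) →
      (∀ m, IsLFunction p c (poly c n V D m) (h m) (L m)) →
      (∀ m, HasOrder (Fintype.card k) (L m) (ρ m) (a m)) →
        average (fun m => (ρ m : ℚ)) ≤
          average (fun m : Member k n D =>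
            ((p ^ r * (p - 1) * (∑ i, numFactors (edge V m i) - 2) : ℕ) : ℚ)) ∧
        average (fun m : Member k n D =>
            ((p ^ r * (p - 1) * (∑ i, numFactors (edge V m i) - 2) : ℕ) : ℚ)) =
          ((p ^ r * (p - 1) : ℕ) : ℚ) * (∑ i : Fin n, (gcdSum (len V i) : ℚ) / len V i - 2)) ∧
    (∏ i : Fin n, (Nat.totient (len V i) : ℚ) / len V i ≤
      proportion (fun m : Member k n D => ∀ (r : ℕ) (h : Fin r → k[X]) (L : ℚ[X]) (ρ : ℕ) (a : ℚ),
        (∀ l, IsBase c n V (h l)) → IsLFunction p c (poly c n V D m) h L →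
        HasOrder (Fintype.card k) L ρ a → ρ ≤ p ^ r * (p - 1) * (n - 2))) ∧
    (n = 2 → ((Nat.totient (len V 0) : ℚ) / len V 0) * ((Nat.totient (len V 1) : ℚ) / len V 1) ≤
      proportion (fun m : Member k n D => ∀ (r : ℕ) (h : Fin r → k[X]) (L : ℚ[X]),
        (∀ l, IsBase c n V (h l)) → IsLFunction p c (poly c n V D m) h L →
          L.eval (1 / (Fintype.card k : ℚ)) ≠ 0 ∧
          (padicValRat p (L.eval (1 / (Fintype.card k : ℚ))) : ℚ) =
            -((s * (p ^ r * (p - 1)) : ℕ) : ℚ) * hodge V n)) := by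
  refine ⟨fun m r h L ρ a hh hL hρ => pointwise p hp s hs c hc n V hV D hD m r h hh L hL ρ a hρ,
    fun r h L ρ a hh hL hρ => ⟨average_mono fun m => ?_, average_bound hs hV _⟩, ?_, ?_⟩
  · exact_mod_cast (pointwise p hp s hs c hc n V hV D hD m r (h m) (hh m) (L m) (hL m) (ρ m) (a m)
      (hρ m)).1
  · rw [← proportion_irreducible (k := k) hs hV (D := D)]
    refine proportion_mono fun m hm r h L ρ a hh hL hρ => ?_
    have h1 := (pointwise p hp s hs c hc n V hV D hD m r h hh L hL ρ a hρ).1
    rw [Finset.sum_congr rfl fun i _ => hm i, Finset.sum_const, Finset.card_univ,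
      Fintype.card_fin, smul_eq_mul, mul_one] at h1
    exact h1
  · rintro rfl
    have h0 : ((Nat.totient (len V 0) : ℚ) / len V 0) * ((Nat.totient (len V 1) : ℚ) / len V 1) =
        ∏ i : Fin 2, (Nat.totient (len V i) : ℚ) / len V i := by
      rw [Fin.prod_univ_two]
      rfl
    rw [h0, ← proportion_irreducible (k := k) hs hV (D := D)]
    refine proportion_mono fun m hm r h L hh hL => ?_
    have hq : (Fintype.card k : ℚ) ≠ 0 := by
      have := Fintype.card_ne_zero (α := k)
      exact_mod_cast this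
    have hL0 : L ≠ 0 := by
      intro h0
      have h1 := hL.1
      rw [h0, coeff_zero] at h1
      exact zero_ne_one h1
    obtain ⟨ρ, M, hLM, hM⟩ := Pool.Agent.U407.LF.exists_order hq hL0
    obtain ⟨h1, -, h3⟩ := pointwise p hp s hs c hc 2 V hV D hD m r h hh L hL ρ
      (M.eval (1 / (Fintype.card k : ℚ))) ⟨M, hLM, rfl, hM⟩
    have hR : p ^ r * (p - 1) * (∑ i, numFactors (edge V m i) - 2) = 0 := by
      rw [Finset.sum_congr rfl fun i _ => hm i, Finset.sum_const, Finset.card_univ,
        Fintype.card_fin, smul_eq_mul, mul_one, Nat.sub_self, mul_zero]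
    rw [hR] at h1 h3
    have hρ0 : ρ = 0 := Nat.le_zero.1 h1
    subst hρ0
    rw [pow_zero, one_mul] at hLM
    rw [hLM]
    exact ⟨hM, h3.2 rfl⟩

end Pool.Agent.Results.MP_60d5ce_nt.PolygonStatistics
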