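import Pool.Agent.U693.FF.Final

/-!
# A positive proportion of all odd hyperelliptic Jacobians over an infinite class of 2-extensions

Let `g ≥ 1`, let `k` be a finite field of characteristic larger than `2 g + 1` and `K = k(t)`. Every curve
of genus `g` over `K` with a map of degree two to the projective line and a rational Weierstrass point has
an equation `y ^ 2 = f(x)`, where `f` is a monic polynomial of degree `2 g + 1` over `k[t]` without term of
degree `2 g`, such that there is no irreducible `P` with `P ^ (2 (2 g + 1 - j)) ∣ f_j` for all `j`; its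
height is the least `N` with `deg f_j ≤ N (2 g + 1 - j)` for all `j`. For `g = 1` these are all elliptic
curves over `K`.

For `f` and a finite set `S` of primes of `k[t]` let `C(f, S)` be the class of all the finite Galois
extensions `M` of `K` of 2-power degree in which all `Q ∈ S` split completely and in which only such primes
`P` of `k[t]` are ramified modulo which `f` is irreducible (there is no condition at infinity).

Theorem. Let `M₀` be any finite Galois extension of `K` of 2-power degree and `T` a finite set of primes.
There are a finite set `S` of primes, disjoint from `T`, and a constant `c > 0` such that for all large `N`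
at least `c` times the number of ALL the curves of genus `g` over `K` of height at most `N` (with a rational
Weierstrass point) have the following properties:

* `f` is irreducible over `K` and modulo all `P ∈ T`;
* `M₀` is in the class `C(f, S)`;
* the class is closed under composita;
* there is an infinite set `Y` of primes of `k[t]` such that all the quadratic extensions `K(√D)`, `D` a
  product of an even number of different elements of `Y`, are in the class; so the class is infinite and
  the compositum of all its members is an infinite extension of `K`;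
* for ALL the extensions `M` in the class multiplication by two is bijective on `J(M)`, `J` the Jacobian of
  the curve, and all classes of 2-power order in the Tate-Shafarevich group of `J` over `M` are zero, even
  without conditions at the places over infinity.

Here `J(L)` is the Picard group of the affine coordinate ring `L[x, y] / (y ^ 2 - f)` (the curve has one
point at infinity, which is rational), and the Tate-Shafarevich group is defined by continuous cocycles on
the absolute Galois group with values in `J` of the separable closure.

The group `J(M)` is finitely generated (Lang and Neron), so that it is finite of odd order, and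
`Sha(J/M)[2^∞] = 0`. By the theorem of Kato and Trihan (Artin, Tate and Milne for `g = 1`; it is enough to
know that ONE primary part is finite) the group `Sha(J/M)` is finite and all the three statements of Q1
hold for `J` over the global function fields `M`, all at the same time for the members of an infinite
class. These theorems are not formalized here.

What is new. For `M = K` this is `MP_60d5ce_nt.PositiveProportionJacobians` (project PJ, helper352 and
others). For one given `M₀`, with a set of curves that depends on `M₀`, it is
`MP_89bcae_ag.SurfacesOverTwoCovers` (project JM, helper874), and the last item is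
`MP_ff7320_nt.UniformOverTwoExtensions` (project TW, helper874), where nothing is proved about the
members of the class; here one set of curves serves `M₀` and the infinitely many other members of the
class. The new parts are: a theorem of Chebotarev type, that a polynomial over `k[t]` which is irreducible
at infinity is irreducible modulo infinitely many primes (`inf_irr` in `Pool/Agent/U693/FF/Inf.lean`:
Hensel's lemma at infinity, a Frobenius-equivariant generator of the splitting field over `k̄(t)`, Weil's
bound for the number of points of the curve it defines over extensions of `k` of degree prime to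
`2 g + 1`, and specialization of the Galois action), that `M₀` is in the class (`Base.lean`), that the
class is closed under composita (inertia groups and Frobenius elements in integral closures, `Iner.lean`,
`Comp.lean`), and the quadratic extensions (`Quad.lean`, `Pig.lean`).

Library used: projects PJ, JB, JM, TW, PM, PP (helper352, helper874 and the helpers named in
`UniformOverTwoExtensions`), `Pool/Agent/H470` (curves attached to semilinear maps) and
`Pool/Agent/R410/PW` (Weil's bound).
-/

set_option autoImplicit false
set_option linter.all false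

namespace Pool.Agent.Results.MP_60d5ce_nt.UniformOverInfiniteClass

open Polynomial Filter IsDedekindDomain
open Pool.Agent.N874.Jac (UniquelyTwoDivisible ShaTwoTrivial)
open scoped Classical

/-- `y ^ 2 = f(x)` is a minimal equation of a curve of genus `g` with a rational Weierstrass point
over `K = k(t)`, of height at most `N`. -/
structure IsCurve {k : Type} [Field k] (K : Type) [Field K] [Algebra k[X] K] (g N : ℕ)
    (f : k[X][X]) : Prop where
  monic : f.Monic
  degree : f.natDegree = 2 * g + 1
  trace : f.coeff (2 * g) = 0
  height : ∀ j ≤ 2 * g, (f.coeff j).natDegree ≤ N * (2 * g + 1 - j)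
  smooth : (f.map (algebraMap k[X] K)).Separable
  minimal : ∀ P : k[X], Irreducible P →
    ¬ ∀ j < 2 * g + 1, P ^ (2 * (2 * g + 1 - j)) ∣ f.coeff j

/-- The curves of genus `g` over `K = k(t)` of height at most `N`. -/
def Curves (k : Type) [Field k] (K : Type) [Field K] [Algebra k[X] K] (g N : ℕ) : Set k[X][X] :=
  {f | IsCurve K g N f}

/-- Multiplication by two is bijective on `J(M)`, `J` the Jacobian of `y ^ 2 = F(x)`, and every class of
2-power order in `H ^ 1 (M, J)` which is zero over the completions of `M` at all maximal ideals of `R` is
zero. -/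
def NoTwoPart (R : Type) {M : Type} [Field M] [CommRing R] [IsDedekindDomain R] [Algebra R M]
    [IsFractionRing R M] (F : M[X]) : Prop :=
  UniquelyTwoDivisible F ∧ ShaTwoTrivial F R

/-- `f` is irreducible modulo `P`. -/
def IrreducibleMod {k : Type} [Field k] (f : k[X][X]) (P : k[X]) : Prop :=
  Irreducible (f.map (Ideal.Quotient.mk (Ideal.span {P})))

/-- `P` is unramified in the extension `R` of `k[t]`. -/
def Unramified {k : Type} [Field k] (R : Type) [CommRing R] [Algebra k[X] R] (P : k[X]) : Prop :=
  ∀ 𝔭 : Ideal R, 𝔭.IsPrime → algebraMap k[X] R P ∉ 𝔭 ^ 2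

/-- `Q` splits completely in the extension `R` of `k[t]`: it is unramified, and every element of `R` is
congruent to a polynomial modulo every prime over `Q`. -/
def SplitsCompletely {k : Type} [Field k] (R : Type) [CommRing R] [Algebra k[X] R] (Q : k[X]) :
    Prop :=
  Unramified R Q ∧ ∀ 𝔭 : Ideal R, 𝔭.IsPrime → algebraMap k[X] R Q ∈ 𝔭 →
    ∀ x : R, ∃ c : k[X], x - algebraMap k[X] R c ∈ 𝔭

/-- The class `C(f, S)`: the finite Galois extensions `M` of `K = k(t)` of 2-power degree in which all
`Q ∈ S` split completely and in which only such primes `P` of `k[t]` are ramified modulo which `f` is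
irreducible. -/
structure InClass {k : Type} [Field k] (K : Type) [Field K] [Algebra k[X] K] (S : Finset k[X])
    (f : k[X][X]) (M : Type) [Field M] [Algebra K M] [Algebra k[X] M] : Prop where
  finite : FiniteDimensional K M
  galois : IsGalois K M
  degree : ∃ n : ℕ, Module.finrank K M = 2 ^ n
  split : ∀ Q ∈ S, SplitsCompletely (integralClosure k[X] M) Q
  ramified : ∀ P : k[X], Irreducible P → Unramified (integralClosure k[X] M) P ∨ IrreducibleMod f P

/-- The field `N` is generated by the images of `M₁` and `M₂`. -/
def IsCompositum (M₁ M₂ N : Type) [Field M₁] [Field M₂] [Field N] [Algebra M₁ N]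
    [Algebra M₂ N] : Prop :=
  ∀ F : Subfield N, (∀ x : M₁, algebraMap M₁ N x ∈ F) → (∀ x : M₂, algebraMap M₂ N x ∈ F) → F = ⊤

/-- The field `M` is generated by `r` over `K`. -/
def IsGeneratedBy (K : Type) {M : Type} [Field K] [Field M] [Algebra K M] (r : M) : Prop :=
  ∀ F : Subfield M, (∀ x : K, algebraMap K M x ∈ F) → r ∈ F → F = ⊤

section properties

variable {k : Type} [Field k] (K : Type) [Field K] [Algebra k[X] K] (S : Finset k[X]) (f : k[X][X])

/-- The class is closed under composita. -/
def ClosedUnderComposita : Prop :=
  ∀ (M₁ M₂ N : Type) [Field M₁] [Algebra K M₁] [Algebra k[X] M₁] [IsScalarTower k[X] K M₁]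
    [Field M₂] [Algebra K M₂] [Algebra k[X] M₂] [IsScalarTower k[X] K M₂]
    [Field N] [Algebra K N] [Algebra k[X] N] [IsScalarTower k[X] K N] [Algebra M₁ N]
    [IsScalarTower K M₁ N] [Algebra M₂ N] [IsScalarTower K M₂ N], IsCompositum M₁ M₂ N →
    InClass K S f M₁ → InClass K S f M₂ → InClass K S f N

/-- The extension `K(√D)` is in the class. -/
def QuadraticInClass (D : k[X]) : Prop :=
  ∀ (M : Type) [Field M] [Algebra K M] [Algebra k[X] M] [IsScalarTower k[X] K M] (r : M),
    r ^ 2 = algebraMap k[X] M D → IsGeneratedBy K r → InClass K S f M

/-- There are infinitely many primes such that the extensions by square roots of products of an even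
number of different ones are in the class. -/
def ManyQuadratic : Prop :=
  ∃ Y : Set k[X], Y.Infinite ∧ (∀ P ∈ Y, P.Monic ∧ Irreducible P) ∧
    ∀ A : Finset k[X], (A : Set k[X]) ⊆ Y → Even A.card → QuadraticInClass K S f (∏ P ∈ A, P)

/-- Over all the members `M` of the class there is no 2-part; `R` is the integral closure of `k[t]` in
`M`. -/
def NoTwoPartUniformly : Prop :=
  ∀ (M : Type) [Field M] [Algebra K M] [Algebra k[X] M] [IsScalarTower k[X] K M]
    [FiniteDimensional K M] [IsGalois K M] (R : Type) [CommRing R] [IsDedekindDomain R]
    [Algebra R M] [IsFractionRing R M] [Algebra k[X] R] [IsScalarTower k[X] R M]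
    [IsIntegralClosure R k[X] M], InClass K S f M → NoTwoPart R (f.map (algebraMap k[X] M))

end properties

/-- The property of the curve `y ^ 2 = f(x)`: `f` is irreducible over `K` and modulo the elements of `T`,
the given extension `M₀` is in the class, the class is closed under composita and contains infinitely
many quadratic extensions, and over all its members there is no 2-part. -/
structure Good {k : Type} [Field k] (K : Type) [Field K] [Algebra k[X] K] (T S : Finset k[X])
    (M₀ : Type) [Field M₀] [Algebra K M₀] [Algebra k[X] M₀] (f : k[X][X]) : Prop where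
  irreducible : Irreducible (f.map (algebraMap k[X] K))
  mod : ∀ P ∈ T, IrreducibleMod f P
  base : InClass K S f M₀
  composita : ClosedUnderComposita K S f
  many : ManyQuadratic K S f
  zero : NoTwoPartUniformly K S f

/-- The curves of genus `g` over `K` and height at most `N` with the property. -/
def GoodCurves (k : Type) [Field k] (K : Type) [Field K] [Algebra k[X] K] (T S : Finset k[X])
    (M₀ : Type) [Field M₀] [Algebra K M₀] [Algebra k[X] M₀] (g N : ℕ) : Set k[X][X] :=
  {f ∈ Curves k K g N | Good K T S M₀ f}

theorem class_iff {k : Type} [Field k] {K : Type} [Field K] [Algebra k[X] K]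
    [IsFractionRing k[X] K] {S : Finset k[X]} (hS : ∀ Q ∈ S, Irreducible Q)
    {f : k[X][X]} {M : Type} [Field M] [Algebra K M] [Algebra k[X] M] [IsScalarTower k[X] K M] :
    InClass K S f M ↔ Pool.Agent.U693.FF.Cls k[X] K S (Pool.Agent.U693.FF.IrrMod f) M := by
  constructor
  · intro h
    refine ⟨h.finite, h.galois, h.degree, fun Q hQ 𝔭 h𝔭 hm => ?_, fun P hP hex => ?_⟩
    · exact ⟨(h.split Q hQ).1 𝔭 h𝔭, (h.split Q hQ).2 𝔭 h𝔭 hm⟩
    · obtain ⟨𝔭, h𝔭, h2⟩ := hex
      exact (h.ramified P hP).resolve_left fun h3 => h3 𝔭 h𝔭 h2
  · intro h
    refine ⟨h.finite, h.galois, h.degree, fun Q hQ => ⟨fun 𝔭 h𝔭 h2 => ?_, fun 𝔭 h𝔭 hm => ?_⟩,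
      fun P hP => ?_⟩
    · exact (h.split Q hQ 𝔭 h𝔭 (Ideal.pow_le_self two_ne_zero h2)).1 h2
    · exact (h.split Q hQ 𝔭 h𝔭 hm).2
    · by_cases h1 : Unramified (integralClosure k[X] M) P
      · exact Or.inl h1
      · right
        apply h.ram P hP
        unfold Unramified at h1
        push Not at h1
        exact h1

theorem good_of {k : Type} [Field k] {K : Type} [Field K] [Algebra k[X] K] [IsFractionRing k[X] K]
    {T S : Finset k[X]} (hS : ∀ Q ∈ S, Irreducible Q)
    {M₀ : Type} [Field M₀] [Algebra K M₀] [Algebra k[X] M₀] [IsScalarTower k[X] K M₀] {f : k[X][X]}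
    (h : Pool.Agent.U693.FF.Prp K T S M₀ f) : Good K T S M₀ f := by
  refine ⟨h.irr, h.onT, (class_iff hS).2 h.base, ?_, ?_, ?_⟩
  · intro M₁ M₂ N _ _ _ _ _ _ _ _ _ _ _ _ _ _ _ _ hg h1 h2
    exact (class_iff hS).2 (h.comp M₁ M₂ N hg ((class_iff hS).1 h1) ((class_iff hS).1 h2))
  · obtain ⟨Y, y1, y2, y3⟩ := h.many
    exact ⟨Y, y1, y2, fun A hA hev M _ _ _ _ r hr hg => (class_iff hS).2 (y3 A hA hev M r hr hg)⟩
  · intro M _ _ _ _ _ _ R _ _ _ _ _ _ _ h1
    exact h.zero M R ((class_iff hS).1 h1)

/-- For every `g ≥ 1`, every finite field `k` of characteristic larger than `2 g + 1`, every finite set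
`T` of primes of `k[t]` and every finite Galois extension `M₀` of `K = k(t)` of 2-power degree there are a
finite set `S` of primes of `k[t]`, disjoint from `T`, and a positive constant `c` such that for all large
`N` at least `c` times the number of all the curves of genus `g` over `K` of height at most `N` with a
rational Weierstrass point are good: `f` is irreducible over `K` and modulo all `P ∈ T`, the class of the
finite Galois extensions `M` of `K` of 2-power degree in which all `Q ∈ S` split completely and in which
only primes are ramified modulo which `f` is irreducible contains `M₀` and all `K(√D)`, `D` a product of an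
even number of different elements of an infinite set of primes, it is closed under composita, and for
ALL `M` in the class multiplication by two is bijective on `J(M)` and the 2-primary part of the
Tate-Shafarevich group of `J` over `M` is zero. -/
theorem result (g : ℕ) (hg : 1 ≤ g) (k : Type) [Field k] [Finite k]
    (hp : ((2 * g + 1).factorial : k) ≠ 0) (K : Type) [Field K] [Algebra k[X] K]
    [IsFractionRing k[X] K] (T : Finset k[X]) (hT : ∀ P ∈ T, P.Monic ∧ Irreducible P)
    (M₀ : Type) [Field M₀] [Algebra K M₀] [Algebra k[X] M₀] [IsScalarTower k[X] K M₀]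
    [FiniteDimensional K M₀] [IsGalois K M₀] (n : ℕ) (hn : Module.finrank K M₀ = 2 ^ n) :
    (∀ N : ℕ, (Curves k K g N).Finite) ∧
    ∃ S : Finset k[X], (∀ Q ∈ S, Q.Monic ∧ Irreducible Q) ∧ Disjoint S T ∧
      ∃ c : ℝ, 0 < c ∧ ∀ᶠ N : ℕ in atTop, 0 < (Curves k K g N).ncard ∧
        c * ((Curves k K g N).ncard : ℝ) ≤ ((GoodCurves k K T S M₀ g N).ncard : ℝ) := by
  have hsub : ∀ N, Curves k K g N ⊆ {f : k[X][X] | Pool.Agent.N352.PJ.Ht g N f} :=
    fun N f hf => ⟨hf.monic, hf.degree, hf.trace, hf.height⟩
  have hfin : ∀ N, (Curves k K g N).Finite := fun N =>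
    (Pool.Agent.N415.PJMAIN.ht_card (k := k) g N).1.subset (hsub N)
  refine ⟨hfin, ?_⟩
  obtain ⟨S, hS, hdis, c, hc, N₀, hN₀⟩ := Pool.Agent.U693.FF.finalF k hg hp K T hT M₀ hn
  refine ⟨S, hS, hdis, c, hc, ?_⟩
  filter_upwards [eventually_ge_atTop N₀] with N hN
  obtain ⟨hHt, hle⟩ := hN₀ N hN
  have hsub2 : {f : k[X][X] | Pool.Agent.N352.PJ.Ht g N f ∧ Pool.Agent.N352.PJ.Mini g f ∧
      (f.map (algebraMap k[X] K)).Separable ∧ Pool.Agent.U693.FF.Prp K T S M₀ f} ⊆
      GoodCurves k K T S M₀ g N := by
    rintro f ⟨a1, a2, a3, a4⟩
    exact ⟨⟨a1.mon, a1.deg, a1.tr, a1.ht, a3, a2⟩, good_of (fun Q hQ => (hS Q hQ).2) a4⟩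
  have hfin2 : (GoodCurves k K T S M₀ g N).Finite := (hfin N).subset fun f hf => hf.1
  have h1 := Set.ncard_le_ncard hsub2 hfin2
  have h2 : c * ({f : k[X][X] | Pool.Agent.N352.PJ.Ht g N f}.ncard : ℝ) ≤
      ((GoodCurves k K T S M₀ g N).ncard : ℝ) := hle.trans (by exact_mod_cast h1)
  have hne : 0 < {f : k[X][X] | Pool.Agent.N352.PJ.Ht g N f}.ncard := by
    rw [Set.ncard_pos hHt]
    refine ⟨X ^ (2 * g + 1), monic_X_pow _, natDegree_X_pow _, ?_, fun j hj => ?_⟩
    · rw [coeff_X_pow, if_neg (by omega)]
    · rw [coeff_X_pow, if_neg (by omega), natDegree_zero]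
      exact Nat.zero_le _
  have h3 : 0 < ((GoodCurves k K T S M₀ g N).ncard : ℝ) := by
    refine lt_of_lt_of_le ?_ h2
    exact mul_pos hc (by exact_mod_cast hne)
  refine ⟨?_, ?_⟩
  · have h4 := Set.ncard_le_ncard (s := GoodCurves k K T S M₀ g N) (t := Curves k K g N)
      (fun f hf => hf.1) (hfin N)
    have h5 : 0 < (GoodCurves k K T S M₀ g N).ncard := by exact_mod_cast h3
    omega
  · refine le_trans ?_ h2
    have h4 := Set.ncard_le_ncard (hsub N) hHt
    exact mul_le_mul_of_nonneg_left (by exact_mod_cast h4) hc.le

end Pool.Agent.Results.MP_60d5ce_nt.UniformOverInfiniteClass
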